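import Pool.Agent.H53.RY.Main

/-!
# MP_97a41f_co: intersecting Ryser subhypergraphs when the fractional matching number is large

An `r`-partite hypergraph is a finite set `H` of functions `e : Fin r → ℕ` (the vertex of `e` in
side `i` is `(i, e i)`).
-/

set_option autoImplicit false

namespace Pool.Agent.Results.MP_97a41f_co.LargeFractional

open Finset

variable {r : ℕ}

/-- the cover number `τ` -/
noncomputable def coverNumber (H : Finset (Fin r → ℕ)) : ℕ :=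
  sInf {k : ℕ | ∃ C : Finset (Fin r × ℕ), C.card = k ∧ ∀ e ∈ H, ∃ i, (i, e i) ∈ C}

/-- the matching number `ν` -/
noncomputable def matchingNumber (H : Finset (Fin r → ℕ)) : ℕ :=
  sSup {k : ℕ | ∃ M : Finset (Fin r → ℕ), M ⊆ H ∧ M.card = k ∧
    ∀ e ∈ M, ∀ f ∈ M, e ≠ f → ∀ i, e i ≠ f i}

/-- `w` is a fractional matching of `H` -/
def IsFractionalMatching (H : Finset (Fin r → ℕ)) (w : (Fin r → ℕ) → ℝ) : Prop :=
  (∀ e ∈ H, 0 ≤ w e) ∧ ∀ i v, ∑ e ∈ H.filter (fun e => e i = v), w e ≤ 1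

/-- `H` has an intersecting `r`-Ryser subhypergraph -/
def HasIntersectingRyser (H : Finset (Fin r → ℕ)) : Prop :=
  ∃ H' : Finset (Fin r → ℕ), H' ⊆ H ∧ H'.Nonempty ∧
    (∀ e ∈ H', ∀ f ∈ H', ∃ i, e i = f i) ∧ coverNumber H' = r - 1

/-- (1) and (2): an `r`-partite hypergraph with a fractional matching of total weight larger than
`(r - 3/2 + 3/(4r-2)) ν`, or larger than both `(r-2) ν` and `(ν - 1/3) r`, has an intersecting
`r`-Ryser subhypergraph. (3): Q1 for the Ryser hypergraphs with `τ = ⌈τ*⌉`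
if `r ≥ 9`, or `ν ≥ 3` and `r ≥ 5`, or `ν ≥ 4` and `r ≥ 4`, or `ν ≥ 5` and `r ≥ 3`. -/
theorem result :
    (∀ r : ℕ, 3 ≤ r → ∀ (H : Finset (Fin r → ℕ)) (w : (Fin r → ℕ) → ℝ),
      IsFractionalMatching H w →
      (r - 3 / 2 + 3 / (4 * r - 2) : ℝ) * matchingNumber H < ∑ e ∈ H, w e →
      HasIntersectingRyser H) ∧
    (∀ r : ℕ, 2 ≤ r → ∀ (H : Finset (Fin r → ℕ)) (w : (Fin r → ℕ) → ℝ),
      IsFractionalMatching H w →
      (r - 2 : ℝ) * matchingNumber H < ∑ e ∈ H, w e →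
      (matchingNumber H - 1 / 3 : ℝ) * r < ∑ e ∈ H, w e →
      HasIntersectingRyser H) ∧
    (∀ r : ℕ, ∀ (H : Finset (Fin r → ℕ)) (w : (Fin r → ℕ) → ℝ),
      IsFractionalMatching H w →
      ((9 ≤ r ∧ 2 ≤ matchingNumber H) ∨ (5 ≤ r ∧ 3 ≤ matchingNumber H) ∨
        (4 ≤ r ∧ 4 ≤ matchingNumber H) ∨ (3 ≤ r ∧ 5 ≤ matchingNumber H)) →
      coverNumber H = (r - 1) * matchingNumber H →
      (coverNumber H - 1 : ℝ) < ∑ e ∈ H, w e →
      HasIntersectingRyser H) := by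
  refine ⟨fun r hr H w hw h => ?_, fun r hr H w hw h1 h2 => ?_, fun r H w hw hrν hτ h => ?_⟩
  · refine H53.RY.partA hr H w hw (lt_of_eq_of_lt ?_ h)
    have hr' : (3 : ℝ) ≤ r := by exact_mod_cast hr
    have h3 : (2 * (r : ℝ) ^ 2 - 4 * r + 3) / (2 * r - 1) = r - 3 / 2 + 3 / (4 * r - 2) := by
      have h4 : (2 * (r : ℝ) - 1) ≠ 0 := by linarith
      have h5 : (4 * (r : ℝ) - 2) ≠ 0 := by linarith
      rw [div_eq_iff h4]
      have h6 : 3 / (4 * (r : ℝ) - 2) * (2 * r - 1) = 3 / 2 := by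
        rw [div_mul_eq_mul_div, div_eq_iff h5]
        ring
      rw [add_mul, h6]
      ring
    rw [h3]
    rfl
  · exact H53.RY.partB hr H w hw h1 h2
  · refine H53.RY.partC r H w hw hrν ?_
    have hr : 1 ≤ r := by omega
    have h1 : (coverNumber H : ℝ) = ((r : ℝ) - 1) * matchingNumber H := by
      rw [hτ]
      push_cast [Nat.cast_sub hr]
      ring
    rw [h1] at h
    exact h

end Pool.Agent.Results.MP_97a41f_co.LargeFractional
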